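import Pool.Agent.Work.MP_6dc561_nt.Count

/-!
# Squares modulo almost all primes of degree one
-/

set_option autoImplicit false
set_option maxHeartbeats 400000

open Filter Topology NumberField IsDedekindDomain Ideal
open Pool.Agent.Work.MP_6dc561_nt

namespace Pool.Agent.Work.MP_75c89d_q1

variable {F : Type*} [Field F] [NumberField F]

theorem norm_data (v : HeightOneSpectrum (𝓞 F)) :
    ∃ l : ℕ, l.Prime ∧ ∃ f : ℕ, 0 < f ∧ absNorm v.asIdeal = l ^ f := by
  have hunder : (v.asIdeal.under ℤ).IsPrime := v.isPrime.under ℤ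
  have hne : v.asIdeal.under ℤ ≠ ⊥ := mt Ideal.eq_bot_of_comap_eq_bot v.ne_bot
  obtain ⟨g, hg⟩ := (IsPrincipalIdealRing.principal (v.asIdeal.under ℤ)).principal
  have hg' : v.asIdeal.under ℤ = Ideal.span {g} := hg
  have hg0 : g ≠ 0 := by
    rintro rfl
    apply hne
    rw [hg']
    simp
  have hgp : Prime g := by
    rw [← Ideal.span_singleton_prime hg0, ← hg']
    exact hunder
  have hl : g.natAbs.Prime := Int.prime_iff_natAbs_prime.mp hgp
  have hmax : (v.asIdeal.under ℤ).IsMaximal := hunder.isMaximal hne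
  have hlo' : v.asIdeal.LiesOver (v.asIdeal.under ℤ) := ⟨rfl⟩
  have hpow : (v.asIdeal.under ℤ).absNorm ^ (v.asIdeal.inertiaDeg ℤ) = absNorm v.asIdeal :=
    absNorm_pow_inertiaDeg (v.asIdeal.under ℤ) v.asIdeal
  have hab : (v.asIdeal.under ℤ).absNorm = g.natAbs := by
    rw [hg', Ideal.absNorm_span_singleton]
    simp
  refine ⟨g.natAbs, hl, v.asIdeal.inertiaDeg ℤ, ?_, ?_⟩
  · exact v.asIdeal.inertiaDeg_pos ℤ
  · rw [← hpow, hab]

/-- the sum of `1 / m` over the prime powers which are not primes -/
noncomputable def G (m : ℕ) : ℝ :=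
  (if m.Prime then 0 else ArithmeticFunction.vonMangoldt.residueClass (1 : ZMod 1) m) / m

theorem G_nonneg (m : ℕ) : 0 ≤ G m := by
  unfold G
  have := ArithmeticFunction.vonMangoldt.residueClass_nonneg (1 : ZMod 1) m
  split_ifs
  · simp
  · positivity

theorem G_summable : Summable G :=
  ArithmeticFunction.vonMangoldt.summable_residueClass_non_primes_div (1 : ZMod 1)

theorem inv_le_G {m : ℕ} (h1 : IsPrimePow m) (h2 : ¬ m.Prime) : (1 : ℝ) / m ≤ G m / Real.log 2 := by
  unfold G
  rw [if_neg h2]
  have h3 : ArithmeticFunction.vonMangoldt.residueClass (1 : ZMod 1) m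
      = ArithmeticFunction.vonMangoldt m := by
    unfold ArithmeticFunction.vonMangoldt.residueClass
    rw [Set.indicator_of_mem]
    exact Subsingleton.elim _ _
  rw [h3, ArithmeticFunction.vonMangoldt_apply, if_pos h1]
  have h4 : Real.log 2 ≤ Real.log (m.minFac : ℝ) := by
    apply Real.log_le_log (by norm_num)
    have : m ≠ 1 := h1.ne_one
    exact_mod_cast (Nat.minFac_prime this).two_le
  have h5 : 0 < Real.log 2 := Real.log_pos (by norm_num)
  have h6 : (0 : ℝ) < m := by exact_mod_cast h1.pos
  rw [div_div, div_le_div_iff₀ h6 (by positivity)]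
  nlinarith

/-- the sum of `q_v^(-s)` over the primes which are not of degree one is bounded -/
theorem degree_two_bdd : ∃ C : ℝ, 0 ≤ C ∧ ∀ (s : ℝ), 1 < s →
    ∀ T : Finset (HeightOneSpectrum (𝓞 F)), (∀ v ∈ T, ¬ (absNorm v.asIdeal).Prime) →
      ∑ v ∈ T, qs F s v ≤ C := by
  classical
  set n : ℝ := (Module.finrank ℤ (𝓞 F) : ℝ) with hn
  have hlog : 0 < Real.log 2 := Real.log_pos (by norm_num)
  have hn0 : 0 ≤ n := Nat.cast_nonneg _
  refine ⟨n * ((∑' m, G m) / Real.log 2), ?_, ?_⟩
  · have h0 : 0 ≤ ∑' m, G m := tsum_nonneg fun m => G_nonneg m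
    exact mul_nonneg hn0 (div_nonneg h0 hlog.le)
  · intro s hs T hT
    have h1 : ∑ v ∈ T, qs F s v ≤ ∑ v ∈ T, (1 : ℝ) / (absNorm v.asIdeal : ℝ) := by
      refine Finset.sum_le_sum fun v _ => ?_
      unfold qs
      have h2 : (1 : ℝ) ≤ absNorm v.asIdeal := by
        have := two_le_norm v
        exact_mod_cast (by omega : 1 ≤ absNorm v.asIdeal)
      rw [one_div, ← Real.rpow_neg_one]
      exact Real.rpow_le_rpow_of_exponent_le h2 (by linarith)
    refine h1.trans ?_
    set N : HeightOneSpectrum (𝓞 F) → ℕ := fun v => absNorm v.asIdeal with hN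
    have hmaps : ∀ v ∈ T, N v ∈ T.image N := fun v hv => Finset.mem_image.mpr ⟨v, hv, rfl⟩
    rw [← Finset.sum_fiberwise_of_maps_to hmaps]
    have h2 : ∀ m ∈ T.image N,
        ∑ v ∈ T.filter (fun v => N v = m), (1 : ℝ) / (absNorm v.asIdeal : ℝ) ≤
          n * (G m / Real.log 2) := by
      intro m hm
      obtain ⟨v, hv, hvm⟩ := Finset.mem_image.mp hm
      have h3 : ∑ v ∈ T.filter (fun v => N v = m), (1 : ℝ) / (absNorm v.asIdeal : ℝ) =
          ∑ v ∈ T.filter (fun v => N v = m), (1 : ℝ) / (m : ℝ) := by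
        refine Finset.sum_congr rfl fun w hw => ?_
        have : absNorm w.asIdeal = m := (Finset.mem_filter.mp hw).2
        rw [this]
      rw [h3, Finset.sum_const, nsmul_eq_mul]
      have h4 : ((T.filter (fun v => N v = m)).card : ℝ) ≤ n := by
        rw [hn, Nat.cast_le]
        exact card_norm_eq_le _ m fun w hw => (Finset.mem_filter.mp hw).2
      have h5 : (1 : ℝ) / m ≤ G m / Real.log 2 := by
        apply inv_le_G
        · obtain ⟨l, hl, f, hf, hlf⟩ := norm_data v
          have : m = l ^ f := by rw [← hvm, ← hlf]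
          rw [this]
          exact (hl.isPrimePow).pow hf.ne'
        · rw [← hvm]
          exact hT v hv
      have h6 : (0 : ℝ) ≤ 1 / m := by positivity
      exact mul_le_mul h4 h5 h6 hn0
    refine (Finset.sum_le_sum h2).trans ?_
    rw [← Finset.mul_sum, ← Finset.sum_div]
    apply mul_le_mul_of_nonneg_left _ hn0
    apply div_le_div_of_nonneg_right _ hlog.le
    exact G_summable.sum_le_tsum _ fun m _ => G_nonneg m

/-- An integer of `F` which is a square modulo almost all primes of degree one is a square. -/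
theorem isSquare_of_forall (e : 𝓞 F) (B : Set (HeightOneSpectrum (𝓞 F))) (hB : B.Finite)
    (h : ∀ v : HeightOneSpectrum (𝓞 F), v ∉ B → (absNorm v.asIdeal).Prime →
      IsSquare (Ideal.Quotient.mk v.asIdeal e)) : IsSquare (e : F) := by
  classical
  by_contra hsq
  have he0 : e ≠ 0 := by
    rintro rfl
    exact hsq ⟨0, by simp⟩
  obtain ⟨C₁, hC₁⟩ := chi_bdd e hsq
  obtain ⟨C₂, hC₂0, hC₂⟩ := degree_two_bdd (F := F)
  set B' : Set (HeightOneSpectrum (𝓞 F)) := B ∪ bad e with hB'
  have hB'f : B'.Finite := hB.union (bad_finite e he0)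
  set S := hB'f.toFinset with hS
  -- `1 - χ` is supported on `B'` and on the primes of degree at least two
  have hzero : ∀ v, v ∉ S → (absNorm v.asIdeal).Prime → chi e v = 1 := by
    intro v hv hp
    have hv' : v ∉ B' := fun h => hv (by rw [hS, Set.Finite.mem_toFinset]; exact h)
    have h1 : v ∉ B := fun h => hv' (Or.inl h)
    have h2 : e ∉ v.asIdeal := fun h => hv' (Or.inr (Or.inr h))
    unfold chi
    rw [if_neg h2, if_pos (h v h1 hp)]
  have key : ∀ s : ℝ, 1 < s → ∑' v, (1 - chi e v) * qs F s v ≤ 2 * (S.card + C₂) := by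
    intro s hs
    have hsum : Summable (fun v => (1 - chi e v) * qs F s v) :=
      summable_mul_qs hs _ 2 fun v => by
        have := chi_abs_le e v
        rw [abs_le] at this ⊢
        constructor <;> linarith [this.1, this.2]
    refine hsum.tsum_le_of_sum_le fun T => ?_
    have h1 : ∀ v ∈ T, (1 - chi e v) * qs F s v ≤
        2 * ((if v ∈ S then 1 else 0) + (if (absNorm v.asIdeal).Prime then 0 else qs F s v)) := by
      intro v _
      have hq := qs_pos s v
      have hc := chi_abs_le e v
      rw [abs_le] at hc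
      have hle1 : qs F s v ≤ 1 := by
        have := qs_le_half hs.le v
        linarith
      by_cases hv : v ∈ S
      · rw [if_pos hv]
        have h2 : 0 ≤ (if (absNorm v.asIdeal).Prime then 0 else qs F s v) := by
          split_ifs
          · exact le_rfl
          · exact hq.le
        have h3 : (1 - chi e v) * qs F s v ≤ 2 * qs F s v :=
          mul_le_mul_of_nonneg_right (by linarith [hc.1]) hq.le
        linarith
      · rw [if_neg hv]
        by_cases hp : (absNorm v.asIdeal).Prime
        · rw [hzero v hv hp]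
          simp [hp]
        · rw [if_neg hp]
          have h3 : (1 - chi e v) * qs F s v ≤ 2 * qs F s v :=
            mul_le_mul_of_nonneg_right (by linarith [hc.1]) hq.le
          linarith
    refine (Finset.sum_le_sum h1).trans ?_
    rw [← Finset.mul_sum, Finset.sum_add_distrib]
    apply mul_le_mul_of_nonneg_left _ (by norm_num)
    apply add_le_add
    · rw [← Finset.sum_filter, Finset.sum_const, nsmul_eq_mul, mul_one]
      have : T.filter (fun v => v ∈ S) ⊆ S := fun v hv => (Finset.mem_filter.mp hv).2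
      exact_mod_cast Finset.card_le_card this
    · have h4 : ∑ v ∈ T, (if (absNorm v.asIdeal).Prime then 0 else qs F s v) =
          ∑ v ∈ T.filter (fun v => ¬ (absNorm v.asIdeal).Prime), qs F s v := by
        rw [Finset.sum_filter]
        refine Finset.sum_congr rfl fun v _ => ?_
        by_cases hp : (absNorm v.asIdeal).Prime <;> simp [hp]
      rw [h4]
      exact hC₂ s hs _ fun v hv => (Finset.mem_filter.mp hv).2
  -- contradiction with the divergence of the sum over all primes
  have hdiv := (primeSum_atTop F).eventually_ge_atTop (C₁ + 2 * (S.card + C₂) + 1)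
  obtain ⟨s, ⟨hs1, hs2⟩, hs3⟩ := ((hdiv.and hC₁).and eventually_mem_nhdsWithin).exists
  have hs : (1 : ℝ) < s := hs3
  have h1 := key s hs
  have h2 : ∑' v, (1 - chi e v) * qs F s v = primeSum F s - ∑' v, chi e v * qs F s v := by
    unfold primeSum
    rw [← (summable_qs hs).tsum_sub (summable_mul_qs hs _ 1 (chi_abs_le e))]
    refine tsum_congr fun v => ?_
    ring
  rw [h2] at h1
  rw [abs_le] at hs2
  linarith [hs2.2]

end Pool.Agent.Work.MP_75c89d_q1
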