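import Mathlib

/-!
# Norms from the field of fifth roots of unity
-/

set_option autoImplicit false

open NumberField Ideal

namespace Pool.Agent.Work.MP_75c89d_q1

theorem even_order {p : ℕ} (h : p % 5 = 2 ∨ p % 5 = 3 ∨ p % 5 = 4) :
    Even (orderOf (p : ZMod 5)) := by
  have h0 : ((p % 5 : ℕ) : ZMod 5) = (p : ZMod 5) := ZMod.natCast_mod p 5
  rw [← h0]
  rcases h with h | h | h
  · rw [h]
    have : orderOf ((2 : ℕ) : ZMod 5) = 2 ^ (1 + 1) := by
      have : Fact (Nat.Prime 2) := ⟨Nat.prime_two⟩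
      apply orderOf_eq_prime_pow
      · decide
      · decide
    rw [this]
    decide
  · rw [h]
    have : orderOf ((3 : ℕ) : ZMod 5) = 2 ^ (1 + 1) := by
      have : Fact (Nat.Prime 2) := ⟨Nat.prime_two⟩
      apply orderOf_eq_prime_pow
      · decide
      · decide
    rw [this]
    decide
  · rw [h]
    have : orderOf ((4 : ℕ) : ZMod 5) = 2 ^ (0 + 1) := by
      have : Fact (Nat.Prime 2) := ⟨Nat.prime_two⟩
      apply orderOf_eq_prime_pow
      · decide
      · decide
    rw [this]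
    decide

variable (E : Type*) [Field E] [NumberField E] [IsCyclotomicExtension {5} ℚ E]

theorem even_absNorm_prime {p : ℕ} (hp : p.Prime) (h : p % 5 = 2 ∨ p % 5 = 3 ∨ p % 5 = 4)
    (P : Ideal (𝓞 E)) (hP : P.IsPrime) (hP0 : P ≠ ⊥) : Even ((absNorm P).factorization p) := by
  have := Fact.mk hp
  have hunder : (P.under ℤ).IsPrime := hP.under ℤ
  have hne : P.under ℤ ≠ ⊥ := mt Ideal.eq_bot_of_comap_eq_bot hP0
  obtain ⟨g, hg⟩ := (IsPrincipalIdealRing.principal (P.under ℤ)).principal
  have hg' : P.under ℤ = Ideal.span {g} := hg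
  have hg0 : g ≠ 0 := by
    rintro rfl
    apply hne
    rw [hg']
    simp
  have hgp : Prime g := by
    rw [← Ideal.span_singleton_prime hg0, ← hg']
    exact hunder
  have hl : g.natAbs.Prime := Int.prime_iff_natAbs_prime.mp hgp
  have hspan : P.under ℤ = Ideal.span {(g.natAbs : ℤ)} := by
    rw [hg']
    exact (Int.span_natAbs g).symm
  have hmax : (P.under ℤ).IsMaximal := hunder.isMaximal hne
  have hlo : P.LiesOver (Ideal.span {(g.natAbs : ℤ)}) := ⟨hspan.symm⟩
  have hpow : (P.under ℤ).absNorm ^ (P.inertiaDeg ℤ) = absNorm P := by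
    have hlo' : P.LiesOver (P.under ℤ) := ⟨rfl⟩
    exact absNorm_pow_inertiaDeg (P.under ℤ) P
  have hab : (P.under ℤ).absNorm = g.natAbs := by
    rw [hspan, Ideal.absNorm_span_singleton]
    simp [Int.natAbs_abs]
  rw [← hpow, hab]
  by_cases hlp : g.natAbs = p
  · have hlo2 : P.LiesOver (Ideal.span {(p : ℤ)}) := by rw [← hlp]; exact hlo
    have hnd : ¬ p ∣ 5 := by
      intro hd
      have := (Nat.prime_dvd_prime_iff_eq hp Nat.prime_five).mp hd
      omega
    have hf : P.inertiaDeg ℤ = orderOf (p : ZMod 5) :=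
      IsCyclotomicExtension.Rat.inertiaDeg_eq_of_not_dvd p E P hnd
    rw [hlp, hf, hp.factorization_pow]
    simpa using even_order h
  · rw [hl.factorization_pow, Finsupp.single_apply, if_neg hlp]
    exact Even.zero

theorem even_absNorm {p : ℕ} (hp : p.Prime) (h : p % 5 = 2 ∨ p % 5 = 3 ∨ p % 5 = 4)
    (I : Ideal (𝓞 E)) (hI : I ≠ ⊥) : Even ((absNorm I).factorization p) := by
  induction I using UniqueFactorizationMonoid.induction_on_prime with
  | h₁ => exact absurd rfl hI
  | h₂ J hJ =>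
    rw [Ideal.isUnit_iff] at hJ
    rw [hJ]
    simp
  | h₃ J P hJ hP ih =>
    have hP' : P.IsPrime := Ideal.isPrime_of_prime hP
    rw [map_mul, Nat.factorization_mul]
    · exact (even_absNorm_prime E hp h P hP' hP.ne_zero).add (ih hJ)
    · exact mt Ideal.absNorm_eq_zero_iff.mp hP.ne_zero
    · exact mt Ideal.absNorm_eq_zero_iff.mp hJ

theorem finrank_four : Module.finrank ℚ E = 4 := by
  rw [IsCyclotomicExtension.finrank (n := 5) E (Polynomial.cyclotomic.irreducible_rat (by norm_num))]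
  decide

/-- if a positive integer is a norm from the field of fifth roots of unity up to squares of
rational numbers then the primes which are not `0` or `1` modulo `5` occur to even powers. -/
theorem even_of_norm {p : ℕ} (hp : p.Prime) (h : p % 5 = 2 ∨ p % 5 = 3 ∨ p % 5 = 4)
    {M : ℕ} (hM : M ≠ 0) (β : E) (q : ℚ) (hMβ : (M : ℚ) = Algebra.norm ℚ β * q ^ 2) :
    Even (M.factorization p) := by
  have hβ : β ≠ 0 := by
    rintro rfl
    apply hM
    have : (M : ℚ) = 0 := by rw [hMβ]; simp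
    exact_mod_cast this
  have hq : q ≠ 0 := by
    rintro rfl
    apply hM
    have : (M : ℚ) = 0 := by rw [hMβ]; simp
    exact_mod_cast this
  obtain ⟨c, hc, hα⟩ : ∃ c : ℤ, c ≠ 0 ∧ ∃ α : 𝓞 E, (α : E) = c * β := by
    have halg : IsAlgebraic ℤ β :=
      (IsFractionRing.isAlgebraic_iff ℤ ℚ E).mpr (Algebra.IsAlgebraic.isAlgebraic β)
    obtain ⟨c, hc, hα⟩ := halg.exists_integral_multiple
    refine ⟨c, hc, ⟨c • β, hα⟩, ?_⟩
    simp [zsmul_eq_mul]
  obtain ⟨α, hα⟩ := hα
  have hn : Algebra.norm ℚ (α : E) = (c : ℚ) ^ 4 * Algebra.norm ℚ β := by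
    rw [hα, map_mul]
    congr 1
    have : (c : E) = algebraMap ℚ E (c : ℚ) := by simp
    rw [this, Algebra.norm_algebraMap, finrank_four]
  have hαn : Algebra.norm ℚ (α : E) = ((Algebra.norm ℤ α : ℤ) : ℚ) := by
    exact (Algebra.coe_norm_int α).symm
  have hint : (M : ℤ) * ((c ^ 2 * q.den) ^ 2) = Algebra.norm ℤ α * q.num ^ 2 := by
    have hq' := Rat.mul_den_eq_num q
    have : ((M : ℤ) * ((c ^ 2 * q.den) ^ 2) : ℚ) = ((Algebra.norm ℤ α : ℤ) : ℚ) * (q.num : ℚ) ^ 2 := by
      rw [← hαn, hn, ← hq']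
      push_cast
      rw [hMβ]
      ring
    exact_mod_cast this
  have hnat : M * (c ^ 2 * q.den).natAbs ^ 2 = (Algebra.norm ℤ α).natAbs * q.num.natAbs ^ 2 := by
    have := congrArg Int.natAbs hint
    simpa [Int.natAbs_mul, Int.natAbs_pow] using this
  have hα0 : α ≠ 0 := by
    rintro rfl
    have : (c : E) * β = 0 := by rw [← hα]; simp
    rcases mul_eq_zero.mp this with h1 | h1
    · exact hc (by exact_mod_cast h1)
    · exact hβ h1
  have he : Even ((Algebra.norm ℤ α).natAbs.factorization p) := by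
    have h1 := even_absNorm E hp h (Ideal.span {α}) (by simpa using hα0)
    rwa [Ideal.absNorm_span_singleton] at h1
  have h1 : (c ^ 2 * (q.den : ℤ)).natAbs ≠ 0 := by
    rw [Int.natAbs_ne_zero]
    exact mul_ne_zero (pow_ne_zero _ hc) (by exact_mod_cast q.den_nz)
  have h2 : q.num.natAbs ≠ 0 := by
    rw [Int.natAbs_ne_zero]
    exact Rat.num_ne_zero.mpr hq
  have h3 : (Algebra.norm ℤ α).natAbs ≠ 0 := by
    rw [Int.natAbs_ne_zero]
    exact mt Algebra.norm_eq_zero_iff.mp hα0
  have h4 := congrArg (fun N => N.factorization p) hnat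
  simp only [Nat.factorization_mul hM (pow_ne_zero 2 h1), Nat.factorization_mul h3 (pow_ne_zero 2 h2),
    Finsupp.add_apply, Nat.factorization_pow, Finsupp.smul_apply, smul_eq_mul] at h4
  have h5 : Even (M.factorization p + 2 * (c ^ 2 * (q.den : ℤ)).natAbs.factorization p) := by
    rw [h4]
    exact he.add (even_two_mul _)
  rw [Nat.even_add] at h5
  exact h5.mpr (even_two_mul _)

end Pool.Agent.Work.MP_75c89d_q1
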