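import Pool.Agent.Work.MP_75c89d_q1.Quad
import Pool.Agent.Work.MP_75c89d_q1.Cyc

/-!
# Norms from number fields containing `√3` and `ζ₅`
-/

set_option autoImplicit false

open NumberField Ideal

namespace Pool.Agent.Work.MP_75c89d_q1

instance : Fact (∀ r : ℚ, r ^ 2 ≠ 3 + 0 * r) := ⟨by
  intro r hr
  have h3 : Irrational (√3 : ℝ) := by
    have := Nat.prime_three.irrational_sqrt
    exact_mod_cast this
  apply h3
  refine ⟨|r|, ?_⟩
  have h4 : (3 : ℝ) = ((r : ℚ) : ℝ) ^ 2 := by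
    have : (3 : ℚ) = r ^ 2 := by linarith
    exact_mod_cast this
  rw [h4, Real.sqrt_sq_eq_abs]
  push_cast
  rfl⟩

variable {L : Type*} [Field L] [NumberField L]

theorem norm_sqrt_three (s : L) (hs : s ^ 2 = 3) (α : L) :
    ∃ x y : ℚ, Algebra.norm ℚ α = x ^ 2 - 3 * y ^ 2 := by
  let F := QuadraticAlgebra ℚ 3 0
  let φ : F →ₐ[ℚ] L := QuadraticAlgebra.lift ⟨s, by
    simp [Algebra.smul_def, ← pow_two, hs]⟩
  letI : Algebra F L := φ.toRingHom.toAlgebra
  have : IsScalarTower ℚ F L := IsScalarTower.of_algebraMap_eq fun r => by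
    rw [RingHom.algebraMap_toAlgebra]
    exact (φ.commutes r).symm
  have : FiniteDimensional F L := Module.Finite.of_restrictScalars_finite ℚ F L
  have h := Algebra.norm_norm (R := ℚ) (S := F) (a := α)
  rw [← h]
  generalize Algebra.norm F α = z
  refine ⟨z.re, z.im, ?_⟩
  have h1 := QuadraticAlgebra.det_toLinearMap_eq_norm z
  rw [QuadraticAlgebra.norm_def] at h1
  have h2 : Algebra.norm ℚ z = z.re * z.re + 0 * z.re * z.im - 3 * z.im * z.im := by
    rw [← h1]
    rfl
  rw [h2]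
  ring

theorem even_of_norm_zeta (ζ : L) (hζ : IsPrimitiveRoot ζ 5) {p : ℕ} (hp : p.Prime)
    (h : p % 5 = 2 ∨ p % 5 = 3 ∨ p % 5 = 4)
    {M : ℕ} (hM : M ≠ 0) (α : L) (q : ℚ) (hMα : (M : ℚ) = Algebra.norm ℚ α * q ^ 2) :
    Even (M.factorization p) := by
  let E := IntermediateField.adjoin ℚ {ζ}
  have : IsCyclotomicExtension {5} ℚ E :=
    hζ.intermediateField_adjoin_isCyclotomicExtension (K := ℚ)
  have : FiniteDimensional E L := Module.Finite.of_restrictScalars_finite ℚ E L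
  have h1 := Algebra.norm_norm (R := ℚ) (S := E) (a := α)
  rw [← h1] at hMα
  exact even_of_norm E hp h hM _ q hMα

end Pool.Agent.Work.MP_75c89d_q1
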