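import Pool.Agent.Work.MP_75c89d_q1.Resid
import Pool.Agent.Work.MP_75c89d_q1.Norms

/-!
# The parity of the number of prime factors `≡ 11` modulo `60`
-/

set_option autoImplicit false
set_option maxHeartbeats 400000

open NumberField Polynomial

namespace Pool.Agent.Work.MP_75c89d_q1

theorem norm_root (f : ℚ[X]) (hf : Irreducible f) (x : ℚ) :
    Algebra.norm ℚ (algebraMap ℚ (AdjoinRoot f) x - AdjoinRoot.root f) =
      f.eval x * f.leadingCoeff⁻¹ := by
  have hf0 : f ≠ 0 := hf.ne_zero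
  let pb := AdjoinRoot.powerBasis hf0
  have hgen : pb.gen = AdjoinRoot.root f := AdjoinRoot.powerBasis_gen hf0
  have h1 : Algebra.leftMulMatrix pb.basis (algebraMap ℚ (AdjoinRoot f) x - AdjoinRoot.root f) =
      Matrix.scalar _ x - Algebra.leftMulMatrix pb.basis pb.gen := by
    rw [map_sub, hgen]
    congr 1
    rw [AlgHom.commutes]
    rfl
  rw [Algebra.norm_eq_matrix_det pb.basis, h1, ← Matrix.eval_charpoly, charpoly_leftMulMatrix,
    hgen, AdjoinRoot.minpoly_root hf0]
  simp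

/-- the predicate `p ≡ 11` modulo `60` -/
def A (p : ℕ) : Bool := p % 60 = 11

theorem om_split {M : ℕ} (h3 : Even (om P3 M))
    (h5 : ∀ p : ℕ, p.Prime → (p % 5 = 2 ∨ p % 5 = 3 ∨ p % 5 = 4) → Even (M.factorization p)) :
    Even (om A M) := by
  set B : ℕ → Bool := fun p => P3 p && !(A p) with hB
  have h1 : om P3 M = om A M + om B M := by
    unfold om
    induction M.primeFactorsList with
    | nil => rfl
    | cons a l ih =>
      rw [List.countP_cons, List.countP_cons, List.countP_cons, ih]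
      have : (if P3 a = true then 1 else 0) = (if A a = true then 1 else 0) +
          (if B a = true then 1 else 0) := by
        by_cases ha : A a = true
        · have h2 : P3 a = true := by
            unfold A at ha
            unfold P3
            simp only [decide_eq_true_eq] at ha ⊢
            omega
          simp [hB, ha, h2]
        · simp [hB, ha]
      omega
  have h2 : Even (om B M) := by
    apply om_even_of_factorization
    intro p hp hBp
    apply h5 p hp
    simp only [hB, P3, A, Bool.and_eq_true, decide_eq_true_eq, Bool.not_eq_true',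
      decide_eq_false_iff_not] at hBp
    have h5' : p % 5 ≠ 0 := by
      intro h0
      have := (Nat.prime_dvd_prime_iff_eq Nat.prime_five hp).mp (Nat.dvd_of_mod_eq_zero h0)
      omega
    omega
  rw [h1, Nat.even_add] at h3
  exact h3.mpr h2

/-- the field `ℚ[X]/(f)` -/
theorem exists_field (f : ℚ[X]) (hf : Irreducible f) :
    ∃ (L : Type) (_ : Field L) (_ : NumberField L) (θ : L), aeval θ f = 0 ∧
      (∀ x : ℚ, Algebra.norm ℚ (algebraMap ℚ L x - θ) = f.eval x * f.leadingCoeff⁻¹) ∧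
      ∀ x : ℝ, (f.map (algebraMap ℚ ℝ)).eval x = 0 → Nonempty (L →+* ℝ) := by
  have h1 : aeval (AdjoinRoot.root f) f = 0 := by
    rw [AdjoinRoot.aeval_eq, AdjoinRoot.mk_self]
  have h2 := norm_root f hf
  have h3 : Module.Finite ℚ (AdjoinRoot f) := (AdjoinRoot.powerBasis hf.ne_zero).finite
  have := Fact.mk hf
  have h4 : CharZero (AdjoinRoot f) :=
    charZero_of_injective_algebraMap (algebraMap ℚ (AdjoinRoot f)).injective
  have h5 : (AdjoinRoot.instAlgebra f : Algebra ℚ (AdjoinRoot f)) = DivisionRing.toRatAlgebra :=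
    Subsingleton.elim _ _
  refine ⟨AdjoinRoot f, AdjoinRoot.instField, ?_, AdjoinRoot.root f, ?_, ?_, ?_⟩
  · rw [h5] at h3
    exact ⟨⟩
  · rw [h5] at h1
    exact h1
  · rw [h5] at h2
    exact h2
  · intro x hx
    exact ⟨AdjoinRoot.lift (algebraMap ℚ ℝ) x (by rwa [eval_map] at hx)⟩

/-- there is no homomorphism to `ℝ` -/
theorem no_real {L : Type*} [Field L] {q w : L} (hq : q ^ 2 = 5) (hw : w ^ 2 = -10 - 2 * q)
    (φ : L →+* ℝ) : False := by
  have h1 : (φ q) ^ 2 = 5 := by rw [← map_pow, hq, map_ofNat]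
  have h2 : (φ w) ^ 2 = -10 - 2 * φ q := by
    rw [← map_pow, hw, map_sub, map_neg, map_mul, map_ofNat, map_ofNat]
  nlinarith [sq_nonneg (φ w), sq_nonneg (φ q + 3)]

theorem same_sign (g : ℤ[X]) (h : ∀ x : ℝ, (g.map (Int.castRingHom ℝ)).eval x ≠ 0) (n n' : ℤ) :
    0 < g.eval n * g.eval n' := by
  have hc : Continuous fun x : ℝ => (g.map (Int.castRingHom ℝ)).eval x :=
    (g.map (Int.castRingHom ℝ)).continuous
  have hev : ∀ m : ℤ, (g.map (Int.castRingHom ℝ)).eval (m : ℝ) = ((g.eval m : ℤ) : ℝ) := by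
    intro m
    rw [eval_intCast_map]
    rfl
  have hne : ∀ m : ℤ, g.eval m ≠ 0 := by
    intro m h0
    apply h (m : ℝ)
    rw [hev, h0]
    simp
  have key : ∀ m m' : ℤ, g.eval m ≤ 0 → 0 ≤ g.eval m' → False := by
    intro m m' h1 h2
    have h3 : (0 : ℝ) ∈ Set.range fun x : ℝ => (g.map (Int.castRingHom ℝ)).eval x := by
      apply mem_range_of_exists_le_of_exists_ge hc
      · refine ⟨(m : ℝ), ?_⟩
        rw [hev]
        exact_mod_cast h1
      · refine ⟨(m' : ℝ), ?_⟩
        rw [hev]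
        exact_mod_cast h2
    obtain ⟨x, hx⟩ := h3
    exact h x hx
  rcases lt_or_gt_of_ne (hne n) with h1 | h1
  · rcases lt_or_gt_of_ne (hne n') with h2 | h2
    · exact mul_pos_of_neg_of_neg h1 h2
    · exact (key n n' h1.le h2.le).elim
  · rcases lt_or_gt_of_ne (hne n') with h2 | h2
    · exact (key n' n h2.le h1.le).elim
    · exact mul_pos h1 h2

/-- the set of the prime divisors of `f` not `≡ 1, 11` modulo `60` is finite -/
def Hyp (f : ℤ[X]) : Prop :=
  {p : ℕ | p.Prime ∧ (∃ n : ℤ, (p : ℤ) ∣ f.eval n) ∧ p % 60 ≠ 1 ∧ p % 60 ≠ 11}.Finite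

theorem Hyp.of_dvd {f g : ℤ[X]} (h : Hyp f) (hd : g ∣ f) : Hyp g := by
  refine Set.Finite.subset h ?_
  rintro p ⟨hp, ⟨n, hn⟩, h1, h2⟩
  obtain ⟨k, rfl⟩ := hd
  exact ⟨hp, ⟨n, by rw [eval_mul]; exact Dvd.dvd.mul_right hn _⟩, h1, h2⟩

/-- the result for irreducible polynomials -/
theorem irreducible_case (g : ℤ[X]) (hg : Irreducible (g.map (Int.castRingHom ℚ))) (h : Hyp g)
    (n n' : ℤ) : g.eval n ≠ 0 ∧ g.eval n' ≠ 0 ∧ Even (om A (g.eval n * g.eval n').natAbs) := by
  have hg0 : g ≠ 0 := by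
    rintro rfl
    simp at hg
  set f := g.map (Int.castRingHom ℚ) with hf
  obtain ⟨L, _, _, θ, hθf, hnorm, hemb⟩ := exists_field f hg
  have hθ : aeval θ g = 0 := by
    rw [hf, aeval_def, eval₂_map] at hθf
    have hc : algebraMap ℤ L = (algebraMap ℚ L).comp (Int.castRingHom ℚ) := RingHom.ext_int _ _
    rw [aeval_def, hc]
    exact hθf
  obtain ⟨s, q, w, hs, hq, hw⟩ := field_data g hg0 θ hθ _ h
    (fun p hp hex hnot => by
      by_contra hcon
      push Not at hcon
      exact hnot ⟨hp, hex, hcon.1, hcon.2⟩)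
  have hζ := zeta_of_data hq hw
  have hreal : ∀ x : ℝ, (g.map (Int.castRingHom ℝ)).eval x ≠ 0 := by
    intro x hx
    have h1 : (f.map (algebraMap ℚ ℝ)).eval x = 0 := by
      rw [hf, Polynomial.map_map, ← hx]
      congr 2
    obtain ⟨φ⟩ := hemb x h1
    exact no_real hq hw φ
  have hpos := same_sign g hreal n n'
  have hn : g.eval n ≠ 0 := left_ne_zero_of_mul hpos.ne'
  have hn' : g.eval n' ≠ 0 := right_ne_zero_of_mul hpos.ne'
  refine ⟨hn, hn', ?_⟩
  have hev : ∀ m : ℤ, f.eval (m : ℚ) = ((g.eval m : ℤ) : ℚ) := by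
    intro m
    rw [hf, eval_intCast_map]
    rfl
  have hN : ∀ m : ℤ, Algebra.norm ℚ (algebraMap ℚ L (m : ℚ) - θ) =
      ((g.eval m : ℤ) : ℚ) * f.leadingCoeff⁻¹ := by
    intro m
    rw [hnorm, hev]
  have hlead : f.leadingCoeff ≠ 0 := leadingCoeff_ne_zero.mpr hg.ne_zero
  have hn'' : ((g.eval n' : ℤ) : ℚ) ≠ 0 := by exact_mod_cast hn'
  have hden : algebraMap ℚ L (n' : ℚ) - θ ≠ 0 := by
    intro h0
    have h1 := hN n'
    rw [h0, Algebra.norm_zero] at h1
    exact mul_ne_zero hn'' (inv_ne_zero hlead) h1.symm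
  set α := (algebraMap ℚ L (n : ℚ) - θ) / (algebraMap ℚ L (n' : ℚ) - θ) with hα
  have hαN : Algebra.norm ℚ α = ((g.eval n : ℤ) : ℚ) / ((g.eval n' : ℤ) : ℚ) := by
    have h1 : α * (algebraMap ℚ L (n' : ℚ) - θ) = algebraMap ℚ L (n : ℚ) - θ :=
      div_mul_cancel₀ _ hden
    have h2 := congrArg (Algebra.norm ℚ) h1
    rw [map_mul, hN, hN] at h2
    rw [eq_div_iff hn'']
    apply mul_right_cancel₀ (inv_ne_zero hlead)
    rw [← h2]
    ring
  have hM : ((g.eval n * g.eval n').natAbs : ℚ) = Algebra.norm ℚ α * ((g.eval n' : ℤ) : ℚ) ^ 2 := by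
    have h1 : ((g.eval n' : ℤ) : ℚ) ≠ 0 := by exact_mod_cast hn'
    have h2 : (((g.eval n * g.eval n').natAbs : ℤ) : ℚ) = ((g.eval n * g.eval n' : ℤ) : ℚ) := by
      rw [Int.natAbs_of_nonneg hpos.le]
    rw [hαN]
    have h3 : ((g.eval n * g.eval n').natAbs : ℚ) = ((g.eval n * g.eval n' : ℤ) : ℚ) := by
      rw [← h2, Int.cast_natCast]
    rw [h3]
    push_cast
    field_simp
  have hM0 : 0 < (g.eval n * g.eval n').natAbs := Int.natAbs_pos.mpr hpos.ne'
  apply om_split
  · obtain ⟨x, y, hxy⟩ := norm_sqrt_three s hs α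
    apply even_of_rat_norm hM0 (x := x * ((g.eval n' : ℤ) : ℚ)) (y := y * ((g.eval n' : ℤ) : ℚ))
    rw [hM, hxy]
    ring
  · intro p hp h5
    exact even_of_norm_zeta _ hζ hp h5 hM0.ne' α _ hM

/-- the general result -/
theorem general_case (f : ℤ[X]) (hf : f ≠ 0) (h : Hyp f) (n n' : ℤ) :
    f.eval n ≠ 0 ∧ f.eval n' ≠ 0 ∧ Even (om A (f.eval n * f.eval n').natAbs) := by
  induction f using UniqueFactorizationMonoid.induction_on_prime with
  | h₁ => exact absurd rfl hf
  | h₂ u hu =>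
    obtain ⟨r, hr, rfl⟩ := Polynomial.isUnit_iff.mp hu
    rw [eval_C, eval_C]
    refine ⟨hr.ne_zero, hr.ne_zero, ?_⟩
    rw [Int.natAbs_mul, om_mul _ (Int.natAbs_ne_zero.mpr hr.ne_zero)
      (Int.natAbs_ne_zero.mpr hr.ne_zero)]
    exact Even.add_self _
  | h₃ a p ha hp ih =>
    obtain ⟨h1, h2, h3⟩ := ih ha (h.of_dvd (Dvd.intro_left p rfl))
    have key : p.eval n ≠ 0 ∧ p.eval n' ≠ 0 ∧ Even (om A (p.eval n * p.eval n').natAbs) := by
      by_cases hd : p.natDegree = 0
      · obtain ⟨c, rfl⟩ := natDegree_eq_zero.mp hd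
        have hc : c ≠ 0 := by
          rintro rfl
          exact hp.ne_zero (map_zero _)
        rw [eval_C, eval_C]
        refine ⟨hc, hc, ?_⟩
        rw [Int.natAbs_mul, om_mul _ (Int.natAbs_ne_zero.mpr hc) (Int.natAbs_ne_zero.mpr hc)]
        exact Even.add_self _
      · have hirr := hp.irreducible
        have hprim : p.IsPrimitive := hirr.isPrimitive hd
        have hQ : Irreducible (p.map (Int.castRingHom ℚ)) :=
          (IsPrimitive.Int.irreducible_iff_irreducible_map_cast hprim).mp hirr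
        exact irreducible_case p hQ (h.of_dvd (Dvd.intro a rfl)) n n'
    obtain ⟨k1, k2, k3⟩ := key
    rw [eval_mul, eval_mul]
    refine ⟨mul_ne_zero k1 h1, mul_ne_zero k2 h2, ?_⟩
    have h4 : p.eval n * a.eval n * (p.eval n' * a.eval n') =
        (p.eval n * p.eval n') * (a.eval n * a.eval n') := by ring
    rw [h4, Int.natAbs_mul, om_mul _ (Int.natAbs_ne_zero.mpr (mul_ne_zero k1 k2))
      (Int.natAbs_ne_zero.mpr (mul_ne_zero h1 h2))]
    exact k3.add h3

end Pool.Agent.Work.MP_75c89d_q1
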