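import Mathlib

/-!
# Prime factors of the values of `x² - 3 y²`
-/

set_option autoImplicit false

namespace Pool.Agent.Work.MP_75c89d_q1

/-- number of prime factors `p` of `N` with `P p`, counted with multiplicity -/
def om (P : ℕ → Bool) (N : ℕ) : ℕ := N.primeFactorsList.countP P

theorem om_mul (P : ℕ → Bool) {M N : ℕ} (hM : M ≠ 0) (hN : N ≠ 0) :
    om P (M * N) = om P M + om P N := by
  unfold om
  rw [(Nat.perm_primeFactorsList_mul hM hN).countP_eq, List.countP_append]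

theorem om_prime (P : ℕ → Bool) {p : ℕ} (hp : p.Prime) : om P p = if P p then 1 else 0 := by
  unfold om
  rw [Nat.primeFactorsList_prime hp, List.countP_singleton]

theorem om_eq_sum (P : ℕ → Bool) (N : ℕ) :
    om P N = ∑ p ∈ (N.primeFactors.filter fun p => P p = true), N.factorization p := by
  unfold om
  rw [List.countP_eq_length_filter, ← Multiset.coe_card, ← Multiset.toFinset_sum_count_eq]
  refine Finset.sum_congr ?_ ?_
  · ext p
    simp
  · intro p hp
    rw [Finset.mem_filter] at hp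
    rw [Multiset.coe_count, List.count_filter hp.2, Nat.primeFactorsList_count_eq]

theorem om_even_of_factorization (P : ℕ → Bool) (N : ℕ)
    (h : ∀ p, p.Prime → P p = true → Even (N.factorization p)) : Even (om P N) := by
  rw [om_eq_sum]
  refine Finset.even_sum _ fun p hp => ?_
  rw [Finset.mem_filter] at hp
  exact h p (Nat.prime_of_mem_primeFactors hp.1) hp.2

/-- the primes `2`, `3` and the primes `≡ 11` modulo `12` -/
def P3 (p : ℕ) : Bool := p = 2 ∨ p = 3 ∨ p % 12 = 11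

theorem list_mod (l : List ℕ) (h : ∀ p ∈ l, p % 12 = 1 ∨ p % 12 = 11) :
    (Even (l.countP P3) ∧ l.prod % 12 = 1) ∨ (¬ Even (l.countP P3) ∧ l.prod % 12 = 11) := by
  induction l with
  | nil => left; simp
  | cons a l ih =>
    have h1 := ih fun p hp => h p (List.mem_cons_of_mem _ hp)
    have ha := h a List.mem_cons_self
    rw [List.countP_cons, List.prod_cons]
    rcases ha with ha | ha
    · have hP : P3 a = false := by
        unfold P3
        simp only [decide_eq_false_iff_not]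
        omega
      rw [hP]
      rcases h1 with ⟨h1, h2⟩ | ⟨h1, h2⟩
      · left
        refine ⟨by simpa using h1, ?_⟩
        rw [Nat.mul_mod, ha, h2]
      · right
        refine ⟨by simpa using h1, ?_⟩
        rw [Nat.mul_mod, ha, h2]
    · have hP : P3 a = true := by
        unfold P3
        simp only [decide_eq_true_eq]
        omega
      rw [hP]
      rcases h1 with ⟨h1, h2⟩ | ⟨h1, h2⟩
      · right
        refine ⟨?_, ?_⟩
        · simp only [if_true, Nat.even_add_one, not_not]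
          exact h1
        · rw [Nat.mul_mod, ha, h2]
      · left
        refine ⟨?_, ?_⟩
        · simp only [if_true, Nat.even_add_one]
          exact h1
        · rw [Nat.mul_mod, ha, h2]

theorem om_P3_of_good {M : ℕ} (hM : M ≠ 0)
    (h : ∀ p, p.Prime → p ∣ M → p % 12 = 1 ∨ p % 12 = 11) : M % 2 = 1 ∧
    (Even (om P3 M) ↔ M % 4 = 1) := by
  have h1 := list_mod M.primeFactorsList fun p hp =>
    h p (Nat.prime_of_mem_primeFactorsList hp) (Nat.dvd_of_mem_primeFactorsList hp)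
  rw [Nat.prod_primeFactorsList hM] at h1
  unfold om
  rcases h1 with ⟨h1, h2⟩ | ⟨h1, h2⟩
  · exact ⟨by omega, ⟨fun _ => by omega, fun _ => h1⟩⟩
  · exact ⟨by omega, ⟨fun h => absurd h h1, fun h => by omega⟩⟩

theorem not_sq_two : ¬ IsSquare (((2 : ℕ) : ZMod 3)) := by
  rintro ⟨r, hr⟩
  revert r
  decide

/-- a prime `≠ 2, 3` modulo which `3` is a square is `≡ ± 1` modulo `12` -/
theorem mod_twelve {p : ℕ} (hp : p.Prime) (h2 : p ≠ 2) (h3 : p ≠ 3)
    (hs : IsSquare (3 : ZMod p)) : p % 12 = 1 ∨ p % 12 = 11 := by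
  have := Fact.mk hp
  have : Fact (Nat.Prime 3) := ⟨Nat.prime_three⟩
  have hodd : p % 2 = 1 := by
    rcases hp.eq_two_or_odd with h | h
    · exact absurd h h2
    · exact h
  have hp3 : ¬ 3 ∣ p := fun h => h3 ((Nat.prime_dvd_prime_iff_eq Nat.prime_three hp).mp h).symm
  have h4 : p % 4 = 1 ∨ p % 4 = 3 := by omega
  rcases h4 with h4 | h4
  · left
    have h5 := (ZMod.exists_sq_eq_prime_iff_of_mod_four_eq_one (p := p) (q := 3) h4
      (by norm_num)).mp (by exact_mod_cast hs)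
    have h6 : ((p % 3 : ℕ) : ZMod 3) = (p : ZMod 3) := ZMod.natCast_mod p 3
    have h7 : p % 3 = 1 ∨ p % 3 = 2 := by omega
    rcases h7 with h7 | h7
    · omega
    · exfalso
      rw [← h6, h7] at h5
      exact not_sq_two h5
  · right
    have h5 := (ZMod.exists_sq_eq_prime_iff_of_mod_four_eq_three (p := p) (q := 3) h4
      (by norm_num) h3).mp (by exact_mod_cast hs)
    have h6 : ((p % 3 : ℕ) : ZMod 3) = (p : ZMod 3) := ZMod.natCast_mod p 3
    have h7 : p % 3 = 1 ∨ p % 3 = 2 := by omega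
    rcases h7 with h7 | h7
    · exfalso
      rw [← h6, h7] at h5
      exact h5 ⟨1, by norm_num⟩
    · omega

theorem prime_dvd_form {x y : ℤ} (hxy : IsCoprime x y) {p : ℕ} (hp : p.Prime) (h2 : p ≠ 2)
    (h3 : p ≠ 3) (hd : (p : ℤ) ∣ x ^ 2 - 3 * y ^ 2) : p % 12 = 1 ∨ p % 12 = 11 := by
  have := Fact.mk hp
  apply mod_twelve hp h2 h3
  have h0 : ((x ^ 2 - 3 * y ^ 2 : ℤ) : ZMod p) = 0 := (ZMod.intCast_zmod_eq_zero_iff_dvd _ p).mpr hd
  push_cast at h0
  have hy : (y : ZMod p) ≠ 0 := by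
    intro hy
    rw [hy] at h0
    have hx : (x : ZMod p) = 0 := by
      have : (x : ZMod p) ^ 2 = 0 := by linear_combination h0
      exact pow_eq_zero_iff (two_ne_zero) |>.mp this
    obtain ⟨a, b, hab⟩ := hxy
    have : ((a * x + b * y : ℤ) : ZMod p) = ((1 : ℤ) : ZMod p) := by rw [hab]
    push_cast at this
    rw [hx, hy] at this
    simp at this
  refine ⟨(x : ZMod p) / y, ?_⟩
  rw [div_mul_div_comm, eq_div_iff (mul_ne_zero hy hy)]
  linear_combination -h0

theorem good_sign {N : ℤ} (hN : N ≠ 0)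
    (h : ∀ p : ℕ, p.Prime → (p : ℤ) ∣ N → p % 12 = 1 ∨ p % 12 = 11) :
    (N % 4 = 1 → (Even (om P3 N.natAbs) ↔ 0 < N)) ∧
      (N % 4 = 3 → (Even (om P3 N.natAbs) ↔ N < 0)) := by
  have h1 := om_P3_of_good (M := N.natAbs) (by omega) fun p hp hd =>
    h p hp (by rwa [← Int.natCast_dvd] at hd)
  obtain ⟨h1, h2⟩ := h1
  rw [h2]
  constructor
  · intro h3
    omega
  · intro h3
    omega

theorem om_two (N : ℤ) (hN : N ≠ 0) : om P3 (2 * N).natAbs = om P3 N.natAbs + 1 := by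
  rw [Int.natAbs_mul, om_mul P3 (by norm_num) (by omega)]
  have : om P3 (2 : ℤ).natAbs = 1 := by
    have h := om_prime P3 Nat.prime_two
    simpa [P3] using h
  omega

theorem om_three (N : ℤ) (hN : N ≠ 0) : om P3 (3 * N).natAbs = om P3 N.natAbs + 1 := by
  rw [Int.natAbs_mul, om_mul P3 (by norm_num) (by omega)]
  have : om P3 (3 : ℤ).natAbs = 1 := by
    have h := om_prime P3 Nat.prime_three
    simpa [P3] using h
  omega

theorem sq_mod_eight_of_odd {x : ℤ} (hx : x % 2 = 1) : x ^ 2 % 8 = 1 := by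
  obtain ⟨k, hk⟩ : ∃ k, x = 2 * k + 1 := ⟨x / 2, by omega⟩
  obtain ⟨l, hl⟩ : ∃ l, k * (k + 1) = 2 * l := by
    obtain ⟨l, hl⟩ := Int.even_mul_succ_self k
    exact ⟨l, by linarith⟩
  have : x ^ 2 = 8 * l + 1 := by rw [hk]; linear_combination 4 * hl
  omega

theorem sq_mod_four_of_even {x : ℤ} (hx : x % 2 = 0) : x ^ 2 % 4 = 0 := by
  obtain ⟨k, hk⟩ : ∃ k, x = 2 * k := ⟨x / 2, by omega⟩
  have : x ^ 2 = 4 * k ^ 2 := by rw [hk]; ring
  omega

theorem form_ne_zero {x y : ℤ} (h : x ≠ 0 ∨ y ≠ 0) : x ^ 2 - 3 * y ^ 2 ≠ 0 := by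
  intro h0
  have hy : y ≠ 0 := by
    rintro rfl
    have : x ^ 2 = 0 := by linear_combination h0
    have : x = 0 := by simpa using this
    rcases h with h | h
    · exact h this
    · exact h rfl
  have h1 : (3 : ℚ) = (x / y) ^ 2 := by
    have hy' : (y : ℚ) ≠ 0 := by exact_mod_cast hy
    have h2 : ((x : ℚ) ^ 2 - 3 * (y : ℚ) ^ 2) = 0 := by exact_mod_cast h0
    field_simp
    linear_combination -h2
  have h3 : Irrational (√3 : ℝ) := by
    have := Nat.prime_three.irrational_sqrt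
    exact_mod_cast this
  apply h3
  refine ⟨|(x : ℚ) / y|, ?_⟩
  have h4 : (3 : ℝ) = (((x : ℚ) / y : ℚ) : ℝ) ^ 2 := by exact_mod_cast h1
  rw [h4, Real.sqrt_sq_eq_abs]
  push_cast
  rfl

/-- the sign of `x² - 3 y²` in terms of its prime factors -/
theorem form_sign_coprime {x y : ℤ} (hxy : IsCoprime x y) :
    (Even (om P3 (x ^ 2 - 3 * y ^ 2).natAbs) ↔ 0 < x ^ 2 - 3 * y ^ 2) := by
  have hne : x ≠ 0 ∨ y ≠ 0 := by
    by_contra h
    push Not at h
    rw [h.1, h.2] at hxy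
    exact not_isCoprime_zero_zero hxy
  have hN := form_ne_zero hne
  -- all prime divisors of a divisor of the form, except 2 and 3
  have hgood : ∀ N : ℤ, N ∣ x ^ 2 - 3 * y ^ 2 → N % 2 = 1 → ¬ (3 : ℤ) ∣ N →
      ∀ p : ℕ, p.Prime → (p : ℤ) ∣ N → p % 12 = 1 ∨ p % 12 = 11 := by
    intro N hd h2 h3 p hp hpN
    apply prime_dvd_form hxy hp _ _ (hpN.trans hd)
    · rintro rfl
      have : (2 : ℤ) ∣ N := by exact_mod_cast hpN
      omega
    · rintro rfl
      exact h3 (by exact_mod_cast hpN)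
  have hpar : x % 2 = 1 ∨ y % 2 = 1 := by
    by_contra h
    push Not at h
    have hx : (2 : ℤ) ∣ x := by omega
    have hy : (2 : ℤ) ∣ y := by omega
    have := hxy.isUnit_of_dvd' hx hy
    rw [Int.isUnit_iff] at this
    omega
  have h3y : (3 : ℤ) ∣ x → ¬ (3 : ℤ) ∣ y := by
    intro hx hy
    have := hxy.isUnit_of_dvd' hx hy
    rw [Int.isUnit_iff] at this
    omega
  by_cases h3 : (3 : ℤ) ∣ x
  · obtain ⟨z, hz⟩ := h3
    have hy3 := h3y ⟨z, hz⟩
    have hy3' : y ^ 2 % 3 = 1 := by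
      have h1 : y % 3 = 1 ∨ y % 3 = 2 := by omega
      rcases h1 with h1 | h1
      · obtain ⟨k, hk⟩ : ∃ k, y = 3 * k + 1 := ⟨y / 3, by omega⟩
        have : y ^ 2 = 3 * (3 * k ^ 2 + 2 * k) + 1 := by rw [hk]; ring
        omega
      · obtain ⟨k, hk⟩ : ∃ k, y = 3 * k + 2 := ⟨y / 3, by omega⟩
        have : y ^ 2 = 3 * (3 * k ^ 2 + 4 * k + 1) + 1 := by rw [hk]; ring
        omega
    have hfac : x ^ 2 - 3 * y ^ 2 = 3 * (3 * z ^ 2 - y ^ 2) := by rw [hz]; ring
    have hzx : z % 2 = x % 2 := by omega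
    have hM3 : ¬ (3 : ℤ) ∣ 3 * z ^ 2 - y ^ 2 := by omega
    rw [hfac] at hN hgood ⊢
    have hM0 : 3 * z ^ 2 - y ^ 2 ≠ 0 := by
      intro h; apply hN; rw [h]; norm_num
    rw [om_three _ hM0]
    by_cases h2 : z % 2 = 1 ∧ y % 2 = 1
    · have h4 := sq_mod_eight_of_odd h2.1
      have h5 := sq_mod_eight_of_odd h2.2
      obtain ⟨K, hK⟩ : ∃ K, 3 * z ^ 2 - y ^ 2 = 2 * K := ⟨(3 * z ^ 2 - y ^ 2) / 2, by omega⟩
      have hK4 : K % 4 = 1 := by omega
      rw [hK] at hgood hM3 hM0 ⊢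
      have hK0 : K ≠ 0 := by omega
      have hK3 : ¬ (3 : ℤ) ∣ K := by omega
      have hg := (good_sign hK0 (hgood K ⟨6, by ring⟩ (by omega) hK3)).1 hK4
      rw [om_two _ hK0, Nat.even_add_one, Nat.even_add_one, not_not, hg]
      omega
    · have h4 : (3 * z ^ 2 - y ^ 2) % 4 = 3 := by
        have h6 : (z % 2 = 1 ∧ y % 2 = 0) ∨ (z % 2 = 0 ∧ y % 2 = 1) := by omega
        rcases h6 with h6 | h6
        · have h7 := sq_mod_eight_of_odd h6.1
          have h8 := sq_mod_four_of_even h6.2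
          omega
        · have h7 := sq_mod_eight_of_odd h6.2
          have h8 := sq_mod_four_of_even h6.1
          omega
      have hg := (good_sign hM0 (hgood _ ⟨3, by ring⟩ (by omega) hM3)).2 h4
      rw [Nat.even_add_one, hg]
      omega
  · have hx3' : x ^ 2 % 3 = 1 := by
      have h1 : x % 3 = 1 ∨ x % 3 = 2 := by omega
      rcases h1 with h1 | h1
      · obtain ⟨k, hk⟩ : ∃ k, x = 3 * k + 1 := ⟨x / 3, by omega⟩
        have : x ^ 2 = 3 * (3 * k ^ 2 + 2 * k) + 1 := by rw [hk]; ring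
        omega
      · obtain ⟨k, hk⟩ : ∃ k, x = 3 * k + 2 := ⟨x / 3, by omega⟩
        have : x ^ 2 = 3 * (3 * k ^ 2 + 4 * k + 1) + 1 := by rw [hk]; ring
        omega
    have hM3 : ¬ (3 : ℤ) ∣ x ^ 2 - 3 * y ^ 2 := by omega
    by_cases h2 : x % 2 = 1 ∧ y % 2 = 1
    · have h4 := sq_mod_eight_of_odd h2.1
      have h5 := sq_mod_eight_of_odd h2.2
      obtain ⟨K, hK⟩ : ∃ K, x ^ 2 - 3 * y ^ 2 = 2 * K := ⟨(x ^ 2 - 3 * y ^ 2) / 2, by omega⟩
      have hK4 : K % 4 = 3 := by omega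
      rw [hK] at hgood hM3 hN ⊢
      have hK0 : K ≠ 0 := by omega
      have hK3 : ¬ (3 : ℤ) ∣ K := by omega
      have hg := (good_sign hK0 (hgood K ⟨2, by ring⟩ (by omega) hK3)).2 hK4
      rw [om_two _ hK0, Nat.even_add_one, hg]
      omega
    · have h4 : (x ^ 2 - 3 * y ^ 2) % 4 = 1 := by
        have h6 : (x % 2 = 1 ∧ y % 2 = 0) ∨ (x % 2 = 0 ∧ y % 2 = 1) := by omega
        rcases h6 with h6 | h6
        · have h7 := sq_mod_eight_of_odd h6.1
          have h8 := sq_mod_four_of_even h6.2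
          omega
        · have h7 := sq_mod_eight_of_odd h6.2
          have h8 := sq_mod_four_of_even h6.1
          omega
      exact (good_sign hN (hgood _ dvd_rfl (by omega) hM3)).1 h4

theorem form_even {X Y : ℤ} (h : 0 < X ^ 2 - 3 * Y ^ 2) :
    Even (om P3 (X ^ 2 - 3 * Y ^ 2).natAbs) := by
  have hne : X ≠ 0 ∨ Y ≠ 0 := by
    by_contra h0
    push Not at h0
    rw [h0.1, h0.2] at h
    norm_num at h
  have hd : (Int.gcd X Y : ℤ) ≠ 0 := by
    intro h0
    have := Int.gcd_eq_zero_iff.mp (by exact_mod_cast h0)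
    rcases hne with h1 | h1
    · exact h1 this.1
    · exact h1 this.2
  set d : ℤ := (Int.gcd X Y : ℤ) with hdd
  obtain ⟨x, hx⟩ : d ∣ X := Int.gcd_dvd_left ..
  obtain ⟨y, hy⟩ : d ∣ Y := Int.gcd_dvd_right ..
  have hxy : IsCoprime x y := by
    have h1 : d = X * Int.gcdA X Y + Y * Int.gcdB X Y := Int.gcd_eq_gcd_ab X Y
    refine ⟨Int.gcdA X Y, Int.gcdB X Y, ?_⟩
    have h2 : d * (Int.gcdA X Y * x + Int.gcdB X Y * y) = d * 1 := by
      rw [mul_one]
      nth_rewrite 2 [h1]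
      linear_combination -Int.gcdA X Y * hx - Int.gcdB X Y * hy
    exact mul_left_cancel₀ hd h2
  have hfac : X ^ 2 - 3 * Y ^ 2 = d * (d * (x ^ 2 - 3 * y ^ 2)) := by
    nth_rewrite 1 [hx]
    nth_rewrite 1 [hy]
    ring
  have hpos : 0 < x ^ 2 - 3 * y ^ 2 := by
    rw [hfac, ← mul_assoc] at h
    exact pos_of_mul_pos_right h (mul_self_nonneg d)
  rw [hfac, Int.natAbs_mul, Int.natAbs_mul, om_mul, om_mul]
  · have h1 := (form_sign_coprime hxy).mpr hpos
    rw [← add_assoc]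
    exact (Even.add_self _).add h1
  · exact Int.natAbs_ne_zero.mpr hd
  · exact Int.natAbs_ne_zero.mpr hpos.ne'
  · exact Int.natAbs_ne_zero.mpr hd
  · exact mul_ne_zero (Int.natAbs_ne_zero.mpr hd) (Int.natAbs_ne_zero.mpr hpos.ne')

theorem even_of_rat_norm {M : ℕ} (hM : 0 < M) {x y : ℚ} (h : (M : ℚ) = x ^ 2 - 3 * y ^ 2) :
    Even (om P3 M) := by
  -- clear denominators
  set d : ℕ := x.den * y.den with hd
  have hd0 : d ≠ 0 := mul_ne_zero x.den_nz y.den_nz
  have hx : (x.num * y.den : ℤ) = x * (d : ℚ) := by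
    have := Rat.mul_den_eq_num x
    rw [hd]
    push_cast
    rw [← this]
    ring
  have hy : (y.num * x.den : ℤ) = y * (d : ℚ) := by
    have := Rat.mul_den_eq_num y
    rw [hd]
    push_cast
    rw [← this]
    ring
  have h1 : ((M : ℤ) * (d : ℤ) * (d : ℤ) : ℤ) = (x.num * y.den) ^ 2 - 3 * (y.num * x.den) ^ 2 := by
    have h2 : ((M : ℤ) * (d : ℤ) * (d : ℤ) : ℚ) =
        ((x.num * y.den : ℤ) : ℚ) ^ 2 - 3 * ((y.num * x.den : ℤ) : ℚ) ^ 2 := by
      rw [hx, hy]
      push_cast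
      linear_combination (d : ℚ) ^ 2 * h
    exact_mod_cast h2
  have hpos : 0 < (x.num * y.den) ^ 2 - 3 * (y.num * x.den) ^ 2 := by
    rw [← h1]
    positivity
  have h3 := form_even hpos
  rw [← h1, Int.natAbs_mul, Int.natAbs_mul, Int.natAbs_natCast, Int.natAbs_natCast,
    om_mul _ (mul_ne_zero hM.ne' hd0) hd0, om_mul _ hM.ne' hd0, add_assoc, Nat.even_add] at h3
  exact h3.mpr (Even.add_self _)

end Pool.Agent.Work.MP_75c89d_q1
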