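import Pool.Agent.Work.MP_75c89d_q1.Bauer
import Pool.Agent.Work.MP_75c89d_q1.Quad

/-!
# Root fields of polynomials whose prime divisors are `≡ 1, 11` modulo `60`
-/

set_option autoImplicit false
set_option maxHeartbeats 400000

open Filter Topology NumberField IsDedekindDomain Ideal Polynomial
open Pool.Agent.Work.MP_6dc561_nt

namespace Pool.Agent.Work.MP_75c89d_q1

variable {F : Type*} [Field F] [NumberField F]

theorem exists_hom (v : HeightOneSpectrum (𝓞 F)) (p : ℕ) (hp : p.Prime)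
    (h : absNorm v.asIdeal = p) : ∃ ψ : 𝓞 F →+* ZMod p, Function.Surjective ψ ∧
      ∀ x, ψ x = 0 ↔ x ∈ v.asIdeal := by
  have hcard : Nat.card (𝓞 F ⧸ v.asIdeal) = p := by
    rw [← h, Ideal.absNorm_apply]
    rfl
  have hfin : Finite (𝓞 F ⧸ v.asIdeal) :=
    Nat.finite_of_card_ne_zero (by rw [hcard]; exact hp.ne_zero)
  letI := Fintype.ofFinite (𝓞 F ⧸ v.asIdeal)
  have hc : Fintype.card (𝓞 F ⧸ v.asIdeal) = p := by
    rw [← Nat.card_eq_fintype_card]; exact hcard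
  let φ := ZMod.ringEquivOfPrime (𝓞 F ⧸ v.asIdeal) hp hc
  refine ⟨(φ.symm : (𝓞 F ⧸ v.asIdeal) →+* ZMod p).comp (Ideal.Quotient.mk v.asIdeal), ?_, ?_⟩
  · intro z
    obtain ⟨x, hx⟩ := Ideal.Quotient.mk_surjective (φ z)
    refine ⟨x, ?_⟩
    rw [RingHom.comp_apply, hx]
    exact φ.symm_apply_apply z
  · intro x
    rw [RingHom.comp_apply]
    have : (φ.symm : (𝓞 F ⧸ v.asIdeal) →+* ZMod p) (Ideal.Quotient.mk v.asIdeal x) = 0 ↔
        Ideal.Quotient.mk v.asIdeal x = 0 := by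
      exact map_eq_zero_iff _ φ.symm.injective
    rw [this, Ideal.Quotient.eq_zero_iff_mem]

theorem isSquare_mk (v : HeightOneSpectrum (𝓞 F)) (p : ℕ) (ψ : 𝓞 F →+* ZMod p)
    (hs : Function.Surjective ψ) (hk : ∀ x, ψ x = 0 ↔ x ∈ v.asIdeal) (e : 𝓞 F)
    (h : IsSquare (ψ e)) : IsSquare (Ideal.Quotient.mk v.asIdeal e) := by
  obtain ⟨r, hr⟩ := h
  obtain ⟨y, rfl⟩ := hs r
  refine ⟨Ideal.Quotient.mk v.asIdeal y, ?_⟩
  rw [← map_mul, Ideal.Quotient.eq, ← hk, map_sub, map_mul, hr, sub_self]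

theorem exists_eval (g : ℤ[X]) (θ : F) (hθ : aeval θ g = 0) (v : HeightOneSpectrum (𝓞 F))
    (p : ℕ) (hp : p.Prime) (h : absNorm v.asIdeal = p)
    (hb : ((g.leadingCoeff : ℤ) : 𝓞 F) ∉ v.asIdeal) : ∃ n : ℤ, (p : ℤ) ∣ g.eval n := by
  have := Fact.mk hp
  obtain ⟨ψ, _, hk⟩ := exists_hom v p hp h
  set b := g.leadingCoeff with hbdef
  have hint : IsIntegral ℤ (b • θ) := isIntegral_leadingCoeff_smul g θ hθ
  let t : 𝓞 F := ⟨b • θ, hint⟩
  have ht : algebraMap (𝓞 F) F t = algebraMap ℤ F b * θ := by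
    have : algebraMap (𝓞 F) F t = b • θ := rfl
    rw [this, Algebra.smul_def]
  have h1 : aeval (algebraMap ℤ F b * θ) (g.scaleRoots b) = 0 :=
    scaleRoots_aeval_eq_zero hθ
  have h2 : aeval t (g.scaleRoots b) = 0 := by
    rw [← ht, aeval_algebraMap_apply] at h1
    exact (map_eq_zero_iff _ (FaithfulSMul.algebraMap_injective (𝓞 F) F)).mp h1
  have h3 : eval₂ (Int.castRingHom (ZMod p)) (ψ t) (g.scaleRoots b) = 0 := by
    have := congrArg ψ h2
    rw [map_zero, aeval_def, hom_eval₂] at this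
    have hc : ψ.comp (algebraMap ℤ (𝓞 F)) = Int.castRingHom (ZMod p) := RingHom.ext_int _ _
    rwa [hc] at this
  have hb0 : ((b : ℤ) : ZMod p) ≠ 0 := by
    intro h0
    apply hb
    rw [← hk, map_intCast]
    exact h0
  have h4 : ψ t = (Int.castRingHom (ZMod p)) b * (ψ t / (b : ZMod p)) := by
    rw [eq_intCast]
    field_simp
  rw [h4, scaleRoots_eval₂_mul] at h3
  rcases mul_eq_zero.mp h3 with h5 | h5
  · exact absurd (eq_zero_of_pow_eq_zero h5) hb0
  · set z := ψ t / (b : ZMod p) with hz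
    refine ⟨(z.val : ℤ), ?_⟩
    rw [← ZMod.intCast_zmod_eq_zero_iff_dvd]
    have h6 : z = ((z.val : ℤ) : ZMod p) := by
      push_cast
      exact (ZMod.natCast_zmod_val z).symm
    rw [h6] at h5
    have h7 := Polynomial.eval₂_at_intCast (p := g) (Int.castRingHom (ZMod p)) (z.val : ℤ)
    rw [h7] at h5
    simpa using h5

theorem three_isSquare {p : ℕ} (hp : p.Prime) (h : p % 60 = 1 ∨ p % 60 = 11) :
    IsSquare (3 : ZMod p) := by
  have := Fact.mk hp
  have : Fact (Nat.Prime 3) := ⟨Nat.prime_three⟩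
  have h6 : ((p % 3 : ℕ) : ZMod 3) = (p : ZMod 3) := ZMod.natCast_mod p 3
  rcases h with h | h
  · have h4 : p % 4 = 1 := by omega
    have h3 : p % 3 = 1 := by omega
    have h5 := (ZMod.exists_sq_eq_prime_iff_of_mod_four_eq_one (p := p) (q := 3) h4
      (by norm_num)).mpr (by rw [← h6, h3]; exact ⟨1, by norm_num⟩)
    exact_mod_cast h5
  · have h4 : p % 4 = 3 := by omega
    have h3 : p % 3 = 2 := by omega
    have h5 := (ZMod.exists_sq_eq_prime_iff_of_mod_four_eq_three (p := p) (q := 3) h4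
      (by norm_num) (by omega)).mpr (by rw [← h6, h3]; exact not_sq_two)
    exact_mod_cast h5

theorem exists_root {p : ℕ} (hp : p.Prime) (h : p % 5 = 1) :
    ∃ z : ZMod p, z ^ 4 + z ^ 3 + z ^ 2 + z + 1 = 0 := by
  have := Fact.mk hp
  have : Fact (Nat.Prime 5) := ⟨Nat.prime_five⟩
  have hd : 5 ∣ Nat.card (ZMod p)ˣ := by
    rw [Nat.card_eq_fintype_card, ZMod.card_units]
    omega
  obtain ⟨z, hz⟩ := exists_prime_orderOf_dvd_card' (G := (ZMod p)ˣ) 5 hd
  refine ⟨(z : ZMod p), ?_⟩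
  have h1 : z ^ 5 = 1 := by rw [← hz]; exact pow_orderOf_eq_one z
  have h2 : z ≠ 1 := by
    rintro rfl
    rw [orderOf_one] at hz
    omega
  have h3 : (z : ZMod p) ^ 5 = 1 := by
    have := congrArg (fun u : (ZMod p)ˣ => (u : ZMod p)) h1
    simpa using this
  have h4 : (z : ZMod p) - 1 ≠ 0 := by
    intro h0
    apply h2
    ext
    simpa using sub_eq_zero.mp h0
  apply mul_left_cancel₀ h4
  linear_combination h3

theorem five_isSquare {p : ℕ} (hp : p.Prime) (h : p % 5 = 1) : IsSquare (5 : ZMod p) := by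
  obtain ⟨z, hz⟩ := exists_root hp h
  refine ⟨2 * (z + z ^ 4) + 1, ?_⟩
  linear_combination (-4 * z ^ 4 + 4 * z ^ 3 - 8 * z + 4) * hz

theorem third_isSquare {p : ℕ} (hp : p.Prime) (h : p % 5 = 1) (Q : ZMod p) (hQ : Q ^ 2 = 5) :
    IsSquare (-10 - 2 * Q) := by
  have := Fact.mk hp
  obtain ⟨z, hz⟩ := exists_root hp h
  have h5 : z ^ 5 = 1 := by linear_combination (z - 1) * hz
  have h1 : (2 * (z + z ^ 4) + 1) ^ 2 = Q ^ 2 := by
    rw [hQ]
    linear_combination (4 * z ^ 4 - 4 * z ^ 3 + 8 * z - 4) * hz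
  rcases sq_eq_sq_iff_eq_or_eq_neg.mp h1 with h2 | h2
  · refine ⟨2 * (z - z ^ 4), ?_⟩
    rw [← h2]
    linear_combination (-12 + 8 * z + 4 * z ^ 3 - 4 * z ^ 4) * hz
  · refine ⟨2 * (z ^ 2 - z ^ 3), ?_⟩
    have h3 : Q = -(2 * (z + z ^ 4) + 1) := by rw [h2]; ring
    rw [h3]
    linear_combination (-8 + 12 * z - 4 * z ^ 2) * hz

/-- the field `ℚ(θ)`, `g(θ) = 0`, contains `√3`, `√5` and `√(-10 - 2 √5)`. -/
theorem field_data (g : ℤ[X]) (hg : g ≠ 0) (θ : F) (hθ : aeval θ g = 0)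
    (S : Set ℕ) (hS : S.Finite) (h : ∀ p : ℕ, p.Prime → (∃ n : ℤ, (p : ℤ) ∣ g.eval n) → p ∉ S →
      p % 60 = 1 ∨ p % 60 = 11) :
    ∃ s q w : F, s ^ 2 = 3 ∧ q ^ 2 = 5 ∧ w ^ 2 = -10 - 2 * q := by
  classical
  set T := hS.toFinset with hT
  set e : 𝓞 F := ((g.leadingCoeff : ℤ) : 𝓞 F) * ∏ p ∈ T.filter Nat.Prime, (p : 𝓞 F) with he
  have he0 : e ≠ 0 := by
    apply mul_ne_zero
    · exact_mod_cast leadingCoeff_ne_zero.mpr hg
    · rw [Finset.prod_ne_zero_iff]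
      intro p hp
      exact_mod_cast (Finset.mem_filter.mp hp).2.ne_zero
  have hB := bad_finite e he0
  -- the primes of degree one outside `bad e`
  have key : ∀ v : HeightOneSpectrum (𝓞 F), v ∉ bad e → (absNorm v.asIdeal).Prime →
      ((absNorm v.asIdeal) % 60 = 1 ∨ (absNorm v.asIdeal) % 60 = 11) := by
    intro v hv hp
    have hev : e ∉ v.asIdeal := fun h0 => hv (Or.inr h0)
    have hb : ((g.leadingCoeff : ℤ) : 𝓞 F) ∉ v.asIdeal := fun h0 =>
      hev (Ideal.mul_mem_right _ _ h0)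
    have hpS : absNorm v.asIdeal ∉ S := by
      intro h0
      apply hev
      apply Ideal.mul_mem_left
      have hmem : absNorm v.asIdeal ∈ T.filter Nat.Prime := by
        rw [Finset.mem_filter, hT, Set.Finite.mem_toFinset]
        exact ⟨h0, hp⟩
      rw [← Finset.mul_prod_erase _ _ hmem]
      exact Ideal.mul_mem_right _ _ (Ideal.absNorm_mem _)
    exact h _ hp (exists_eval g θ hθ v _ hp rfl hb) hpS
  -- `3` is a square
  have h3 : IsSquare (((3 : 𝓞 F) : F)) := by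
    apply isSquare_of_forall 3 (bad e) hB
    intro v hv hp
    obtain ⟨ψ, hs, hk⟩ := exists_hom v _ hp rfl
    apply isSquare_mk v _ ψ hs hk
    rw [map_ofNat]
    exact three_isSquare hp (key v hv hp)
  have h5 : IsSquare (((5 : 𝓞 F) : F)) := by
    apply isSquare_of_forall 5 (bad e) hB
    intro v hv hp
    obtain ⟨ψ, hs, hk⟩ := exists_hom v _ hp rfl
    apply isSquare_mk v _ ψ hs hk
    rw [map_ofNat]
    exact five_isSquare hp (by have := key v hv hp; omega)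
  obtain ⟨s, hs⟩ := h3
  obtain ⟨q, hq⟩ := h5
  have hq2 : q ^ 2 = 5 := by
    rw [pow_two, ← hq]
    exact map_ofNat (algebraMap (𝓞 F) F) 5
  have hs2 : s ^ 2 = 3 := by
    rw [pow_two, ← hs]
    exact map_ofNat (algebraMap (𝓞 F) F) 3
  have hqi : IsIntegral ℤ q := by
    refine ⟨X ^ 2 - C 5, monic_X_pow_sub_C _ (by norm_num), ?_⟩
    rw [eval₂_sub, eval₂_pow, eval₂_X, eval₂_C, hq2]
    simp
  let Q : 𝓞 F := ⟨q, hqi⟩
  have hQ : Q ^ 2 = 5 := by
    apply FaithfulSMul.algebraMap_injective (𝓞 F) F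
    rw [map_pow, map_ofNat]
    exact hq2
  have hw : IsSquare (((-10 - 2 * Q : 𝓞 F) : F)) := by
    apply isSquare_of_forall _ (bad e) hB
    intro v hv hp
    obtain ⟨ψ, hs', hk⟩ := exists_hom v _ hp rfl
    apply isSquare_mk v _ ψ hs' hk
    have h1 : ψ (-10 - 2 * Q) = -10 - 2 * ψ Q := by
      rw [map_sub, map_neg, map_mul, map_ofNat, map_ofNat]
    rw [h1]
    apply third_isSquare hp (by have := key v hv hp; omega)
    rw [← map_pow, hQ, map_ofNat]
  obtain ⟨w, hw⟩ := hw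
  refine ⟨s, q, w, hs2, hq2, ?_⟩
  rw [pow_two, ← hw]
  change algebraMap (𝓞 F) F (-10 - 2 * Q) = _
  rw [map_sub, map_neg, map_mul, map_ofNat, map_ofNat]
  rfl

theorem zeta_of_data {q w : F} (hq : q ^ 2 = 5) (hw : w ^ 2 = -10 - 2 * q) :
    IsPrimitiveRoot ((-1 + q + w) / 4) 5 := by
  set z := (-1 + q + w) / 4 with hz
  have h1 : z ^ 2 - (q - 1) / 2 * z + 1 = 0 := by
    rw [hz]
    linear_combination (-1 / 16 : F) * hq + (1 / 16 : F) * hw
  have h2 : z ^ 4 + z ^ 3 + z ^ 2 + z + 1 = 0 := by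
    linear_combination (z ^ 2 + (q + 1) / 2 * z + 1) * h1 + z ^ 2 / 4 * hq
  have h5 : z ^ 5 = 1 := by linear_combination (z - 1) * h2
  have hne : z ≠ 1 := by
    intro h0
    rw [h0] at h2
    norm_num at h2
  have : Fact (Nat.Prime 5) := ⟨Nat.prime_five⟩
  have h6 := orderOf_eq_prime h5 hne
  rw [← h6]
  exact IsPrimitiveRoot.orderOf z

end Pool.Agent.Work.MP_75c89d_q1
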